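import Mathlib

set_option autoImplicit false

namespace Pool.Agent.W37.HS

theorem hs_prime : ∃ B : ℕ, ∀ a b m N p : ℕ, 1 ≤ a → 2*a ≤ b → 1 ≤ m →
    (∑ n ∈ Finset.Icc a b, (1/(n:ℚ)) + 1/(m:ℚ) = (N:ℚ)) →
    p.Prime → B ≤ p → b < 16*p → p ≤ b → p ∣ m := by
  refine ⟨Nat.factorial 15 * 15 + 1, ?_⟩
  intro a b m N p ha hab hm hsum hp hB hb hpb
  have : Fact p.Prime := ⟨hp⟩
  by_contra hpm
  set F : Finset ℕ := (Finset.Icc a b).filter (fun n => p ∣ n) with hF
  set F' : Finset ℕ := (Finset.Icc a b).filter (fun n => ¬ p ∣ n) with hF'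
  set S : ℚ := ∑ n ∈ F, (1/(n:ℚ)) with hS
  set S' : ℚ := ∑ n ∈ F', (1/(n:ℚ)) with hS'
  have hp0 : 0 < p := hp.pos
  have hsplit : S + S' = ∑ n ∈ Finset.Icc a b, (1/(n:ℚ)) :=
    Finset.sum_filter_add_sum_filter_not (Finset.Icc a b) (fun n => p ∣ n) _
  have hnorm1 : ∀ n : ℕ, ¬ p ∣ n → padicNorm p (1/(n:ℚ)) ≤ 1 := by
    intro n hn
    have h1 : padicNorm p (n : ℚ) = 1 := (padicNorm.nat_eq_one_iff n).2 hn
    rw [padicNorm.div, padicNorm.one, h1, div_one]
  have hS'le : padicNorm p S' ≤ 1 := by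
    apply padicNorm.sum_le' _ zero_le_one
    intro n hn
    exact hnorm1 n (Finset.mem_filter.1 hn).2
  have hNle : padicNorm p (N : ℚ) ≤ 1 := padicNorm.of_nat N
  have hSle : padicNorm p S ≤ 1 := by
    have hSe : S = ((N : ℚ) - 1/(m:ℚ)) - S' := by
      rw [← hsplit] at hsum
      linarith
    rw [hSe]
    refine le_trans (padicNorm.sub) (max_le (le_trans (padicNorm.sub) (max_le hNle (hnorm1 m hpm))) hS'le)
  set M : ℕ := ∑ n ∈ F, Nat.factorial 15 / (n / p) with hM
  have hj : ∀ n ∈ F, 1 ≤ n / p ∧ n / p ≤ 15 ∧ n = p * (n / p) := by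
    intro n hn
    rw [hF, Finset.mem_filter, Finset.mem_Icc] at hn
    obtain ⟨⟨h1, h2⟩, h3⟩ := hn
    have h4 : n = p * (n / p) := (Nat.mul_div_cancel' h3).symm
    refine ⟨?_, ?_, h4⟩
    · have : n / p ≠ 0 := by
        intro h0
        rw [h0, mul_zero] at h4
        omega
      exact Nat.pos_of_ne_zero this
    · have : n / p < 16 := by
        rw [Nat.div_lt_iff_lt_mul hp0]
        omega
      exact Nat.lt_succ_iff.1 this
  have hMS : (M : ℚ) = (Nat.factorial 15 : ℚ) * (p : ℚ) * S := by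
    rw [hM, hS, Finset.mul_sum, Nat.cast_sum]
    apply Finset.sum_congr rfl
    intro n hn
    obtain ⟨h1, h2, h3⟩ := hj n hn
    have hd : (n / p) ∣ Nat.factorial 15 := Nat.dvd_factorial (by omega) h2
    have hj0 : ((n / p : ℕ) : ℚ) ≠ 0 := by
      have : (n / p) ≠ 0 := by omega
      exact_mod_cast this
    rw [Nat.cast_div hd hj0]
    have hp0' : (p : ℚ) ≠ 0 := by exact_mod_cast hp0.ne'
    have hn' : (n : ℚ) = (p : ℚ) * ((n / p : ℕ) : ℚ) := by exact_mod_cast h3
    rw [hn']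
    have hred : ((p * (n / p) : ℕ)) / p = n / p := by
      rw [← h3]
    field_simp
  have hpM : p ∣ M := by
    have h1 : padicNorm p (M : ℚ) < 1 := by
      rw [hMS, padicNorm.mul, padicNorm.mul]
      have h2 : padicNorm p ((Nat.factorial 15 : ℕ) : ℚ) ≤ 1 := padicNorm.of_nat _
      have h3 : padicNorm p (p : ℚ) < 1 := padicNorm.padicNorm_p_lt_one_of_prime
      have h4 : 0 ≤ padicNorm p (p : ℚ) := padicNorm.nonneg _
      have h5 : 0 ≤ padicNorm p ((Nat.factorial 15 : ℕ) : ℚ) := padicNorm.nonneg _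
      have h6 : 0 ≤ padicNorm p S := padicNorm.nonneg _
      calc padicNorm p ((Nat.factorial 15 : ℕ) : ℚ) * padicNorm p (p : ℚ) * padicNorm p S
          ≤ 1 * padicNorm p (p : ℚ) * 1 := by gcongr
        _ = padicNorm p (p : ℚ) := by ring
        _ < 1 := h3
    exact (padicNorm.nat_lt_one_iff M).1 h1
  have hmem : p * (b / p) ∈ F := by
    rw [hF, Finset.mem_filter, Finset.mem_Icc]
    have hq1 : 1 ≤ b / p := (Nat.one_le_div_iff hp0).2 hpb
    have hlt : b < p * (b / p) + p := by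
      have := Nat.lt_mul_div_succ b hp0
      linarith [this, mul_add p (b / p) 1]
    have hge : p ≤ p * (b / p) := Nat.le_mul_of_pos_right p (by omega)
    refine ⟨⟨?_, Nat.mul_div_le b p⟩, dvd_mul_right _ _⟩
    omega
  have hMpos : 0 < M := by
    rw [hM]
    apply Finset.sum_pos'
    · intro i _
      exact Nat.zero_le _
    · refine ⟨_, hmem, ?_⟩
      obtain ⟨h1, h2, h3⟩ := hj _ hmem
      exact Nat.div_pos (Nat.le_of_dvd (Nat.factorial_pos 15) (Nat.dvd_factorial (by omega) h2))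
        (by omega)
  have hcard : F.card ≤ 15 := by
    have h1 : F.card ≤ (Finset.Icc 1 15).card := by
      apply Finset.card_le_card_of_injOn (fun n => n / p)
      · intro n hn
        obtain ⟨h1, h2, h3⟩ := hj n hn
        simp only [Finset.coe_Icc, Set.mem_Icc]
        exact ⟨h1, h2⟩
      · intro n hn n' hn' he
        obtain ⟨_, _, h3⟩ := hj n hn
        obtain ⟨_, _, h3'⟩ := hj n' hn'
        simp only at he
        rw [h3, h3', he]
    simpa using h1
  have hMle : M ≤ 15 * Nat.factorial 15 := by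
    calc M ≤ ∑ n ∈ F, Nat.factorial 15 := by
          rw [hM]
          exact Finset.sum_le_sum fun n _ => Nat.div_le_self _ _
      _ = F.card * Nat.factorial 15 := by rw [Finset.sum_const, smul_eq_mul]
      _ ≤ 15 * Nat.factorial 15 := Nat.mul_le_mul_right _ hcard
  have hle := Nat.le_of_dvd hMpos hpM
  rw [mul_comm 15] at hMle
  omega

end Pool.Agent.W37.HS
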